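import Pool.Agent.SC322.P14

set_option autoImplicit false

/-!
# A supercongruence for a difference of two convolution sums, modulo `p^(2r+2)`

For every odd prime `p` and every `r ≥ 1` the difference
`∑_{k<p^r} (1/16^k - 1/(-8)^k) a_k`, where
`a_k = ∑_{j≤k} C(2j,j)^3 C(2k-2j,k-j)^3 (3j+1)(3k-3j+1)`, is divisible by `p^(2r+2)`
(the difference is a rational number; divisibility refers to its numerator in lowest terms).
-/

namespace Pool.Agent.Results.MP_322b37_nt.TwoConvolutions

theorem result (p r : ℕ) (hp : p.Prime) (hodd : p ≠ 2) (hr : 1 ≤ r) :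
    (p : ℤ) ^ (2 * r + 2) ∣
      (∑ k ∈ Finset.range (p ^ r), ((1 : ℚ) / 16 ^ k - 1 / (-8) ^ k) *
        ∑ j ∈ Finset.range (k + 1),
          ((2 * j).choose j : ℚ) ^ 3 * ((2 * (k - j)).choose (k - j) : ℚ) ^ 3 *
            (3 * (j : ℚ) + 1) * (3 * ((k - j : ℕ) : ℚ) + 1)).num :=
  SC322.P14.main_rat hp hodd hr

end Pool.Agent.Results.MP_322b37_nt.TwoConvolutions
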